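import Pool.Agent.PScheme.Asymp
import Pool.Agent.H52.SchemeLower

/-!
# MP_8d161b_co: clique minors forced by `p`-schemes

Duchet's `g(p)` satisfies `g(p) ≥ ⌊p/2⌋ + 1` for every `p ≥ 2`, and `g(p) / p → 1/2`.
-/

namespace Pool.Agent.Results.MP_8d161b_co.Asymptotic

open PScheme Filter Topology

theorem lower (p : ℕ) (hp : 2 ≤ p) : p / 2 + 1 ≤ gNum p :=
  (gNum_isGreatest p).2 (fun _ _ _ h => H52Scheme.hasScheme_contractsOnto hp h)

theorem result :
    (∀ p : ℕ, IsGreatest (Forced p) (gNum p)) ∧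
    (∀ p : ℕ, 2 ≤ p → p / 2 + 1 ≤ gNum p) ∧
    Tendsto (fun p : ℕ => (gNum p : ℝ) / p) atTop (𝓝 (1 / 2)) := by
  refine ⟨gNum_isGreatest, lower, ?_⟩
  rw [Metric.tendsto_atTop]
  intro ε hε
  obtain ⟨p₀, hp₀⟩ := gNum_upper (half_pos hε)
  refine ⟨max p₀ 2, fun p hp => ?_⟩
  have h1 := hp₀ p ((le_max_left _ _).trans hp)
  have hp2 : 2 ≤ p := (le_max_right _ _).trans hp
  have h2 := lower p hp2
  have hpos : (0 : ℝ) < p := by exact_mod_cast (by omega : 0 < p)
  have h3 : (p : ℝ) ≤ 2 * gNum p := by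
    have : p ≤ 2 * gNum p := by omega
    exact_mod_cast this
  rw [Real.dist_eq, abs_lt]
  constructor
  · have : (1 : ℝ) / 2 ≤ gNum p / p := by
      rw [div_le_div_iff₀ (by norm_num) hpos]
      linarith
    linarith
  · have : (gNum p : ℝ) / p ≤ 1 / 2 + ε / 2 := by
      rw [div_le_iff₀ hpos]
      exact h1
    linarith

end Pool.Agent.Results.MP_8d161b_co.Asymptotic
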